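import Mathlib
import Pool.Agent.U473.TQ.Five

set_option autoImplicit false

/-!
# MP_73c65d_al, Q2: finitely many admissible degrees for the primes 2, 3, 5

`Admissible p q r u n` (file `Pool/Agent/U473/TQ/Main.lean`): `n ≥ 3` and there are `ξ`, `η`, `ζ` in
the alternating group `A_n` which generate it, with
`ξ ^ p = η ^ q = ζ ^ r = ξ η ζ u(ξ, η, ζ) = 1`.

`word g` is the commutator word `(x y z)⁻¹ g⁻¹ (x y z) g`, for an element `g` of the free group on
`x`, `y`, `z`; `word 1 = 1`. The relation `x y z * word g = 1` says that a conjugate of `x y z` is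
trivial, so with the primes 2, 3, 5 the group of the question is the spherical triangle group
`(2, 3, 5)`. It is shown to have at most 60 elements (12 cosets of the cyclic subgroup of order
five), and it is mapped onto `A_5`.
-/

namespace Pool.Agent.Results.MP_73c65d_al.OnlyDegreeFive

open Pool.Agent.U473.TQ

/-- For the primes `2, 3, 5` and for each of the infinitely many commutator words `word g` exactly
one `n` is admissible, `n = 5`. So it is not true that for all distinct primes `p`, `q`, `r` and for
all commutator words `u` infinitely many `n` are admissible. -/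
theorem result :
    (∀ g : FreeGroup (Fin 3), word g ∈ commutator (FreeGroup (Fin 3)) ∧
      ∀ n : ℕ, Admissible 2 3 5 (word g) n ↔ n = 5) ∧
    (Set.range word).Infinite ∧
    ¬ ∀ p q r : ℕ, p.Prime → q.Prime → r.Prime → p ≠ q → q ≠ r → p ≠ r →
      ∀ u ∈ commutator (FreeGroup (Fin 3)), {n : ℕ | Admissible p q r u n}.Infinite := by
  have h1 : ∀ g : FreeGroup (Fin 3), word g ∈ commutator (FreeGroup (Fin 3)) ∧
      ∀ n : ℕ, Admissible 2 3 5 (word g) n ↔ n = 5 := fun g =>
    ⟨word_mem g, fun n => ⟨eq_five, fun h => by rw [h]; exact five_admissible g⟩⟩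
  refine ⟨h1, ?_, ?_⟩
  · refine (Set.infinite_range_of_injective word_injective).mono ?_
    rintro _ ⟨k, rfl⟩
    exact ⟨_, rfl⟩
  · intro h
    have h2 := h 2 3 5 (by norm_num) (by norm_num) (by norm_num) (by norm_num) (by norm_num)
      (by norm_num) (word 1) (h1 1).1
    apply h2
    have h3 : {n : ℕ | Admissible 2 3 5 (word 1) n} = {5} := by
      ext n
      exact (h1 1).2 n
    rw [h3]
    exact Set.finite_singleton 5

end Pool.Agent.Results.MP_73c65d_al.OnlyDegreeFive
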